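import Pool.Agent.helper7.EP.SpecL
import Pool.Agent.helper86.PrimesDyadic

/-!
# Project ep (MP_ebc808_nt): odd values of the partition function (part O, helper81 and helper7)

For `A = 4^b` and `n ≤ A Y` the left side of the identity IDL is the number of representations `n = tri r + A m`, `p(m)` odd,
modulo 2. Most `n` of this form have exactly one representation if there are few such `m`, and then the right side contains an odd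
value `p(s)`, `s ≤ A² Y`. Every module proves one statement:
`theorem XX (h : YY_stmt) ... : XX_stmt`, file `Pool/Agent/<seat>/EP/XX.lean`,
`import Pool.Agent.helper81.EP.SpecO`, namespace `Pool.Agent.EP`; auxiliary lemmas prefixed `XX_`;
other statements of SpecO (and IDL_stmt) may be hypotheses. No sorry, no double quotes in the file.
-/

set_option autoImplicit false

open Finset
open scoped Real

noncomputable section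

namespace Pool.Agent.EP

/-- The number of `n ≤ X` with `p(n)` odd. -/
def sO (X : ℕ) : ℕ := #{n ∈ range (X + 1) | Odd (Fintype.card (Nat.Partition n))}

/-- `n` is clean for `A = 4^b`: no large divisor of some `A - 3 w²` divides `24 n + 3 - A`. -/
def Cln (b e n : ℕ) : Prop := ∀ w ∈ ws (4 ^ b), ∀ d : ℕ, 2 ^ b * e ≤ d → d ∣ 4 ^ b - 3 * w ^ 2 →
  ¬ d ∣ 24 * n + 3 - 4 ^ b

/-- The identity for `n` contains an odd value `p(s)` with a small `d`. -/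
def Rch (b e n : ℕ) : Prop := ∃ w ∈ ws (4 ^ b), ∃ d s : ℕ, 0 < d ∧ d < 2 ^ b * e ∧ 1 ≤ s ∧
  s ≤ 4 ^ b * n ∧ Odd (Fintype.card (Nat.Partition s)) ∧ d ∣ 4 ^ b - 3 * w ^ 2 ∧
  d ∣ 24 * n + 3 - 4 ^ b ∧ (4 ^ b - 3 * w ^ 2) * (24 * n + 3 - 4 ^ b) = d ^ 2 * (24 * s - 1)

open Classical in
/-- The primes `u` in `(T, 2T]` not dividing `24 m - 1` for which `n = tri r + 4^b m`, `u = 2 r + 1`, is not clean. -/
def Bdu (b e m T : ℕ) : Finset ℕ :=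
  {u ∈ Ioc T (2 * T) | u.Prime ∧ ¬ u ∣ 24 * m - 1 ∧ ¬ Cln b e (tri ((u - 1) / 2) + 4 ^ b * m)}

/-- MOD OR (medium). Roots of `3 u² + B` modulo `d`, prime to `d`. Proof: `d ≥ 1`. If the set is not empty fix `u₀` in it. Map `u` to
`g = gcd(u - u₀, d)`, a divisor of `d`. This is injective: `d ∣ 3 (u - u₀)(u + u₀)`, `3` is prime to `d`, and `d / g` is prime to
`(u - u₀)/g`, so `d / g ∣ u + u₀`. If `u'` has the same `g` then `g ∣ u - u'` and `d / g ∣ u - u'`. `g` and `d / g` are coprime: a common prime `q`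
divides `u - u₀` and `u + u₀`, so `2 u₀`, and `q` is odd, so `q ∣ u₀`, but `u₀` is prime to `d`. So `d ∣ u - u'`, `|u - u'| < d`, `u = u'`. -/
def OR_stmt : Prop := ∀ (d : ℕ) (B x : ℤ), d % 2 = 1 → ¬ 3 ∣ d →
  #{u ∈ Finset.Ico x (x + d) | (d : ℤ) ∣ 3 * u ^ 2 + B ∧ Int.gcd u d = 1} ≤ #d.divisors

/-- MOD OI (short; OR). Proof: `Ico x (x + L)` is contained in the union of the `Ico (x + i d) (x + i d + d)`, `i ≤ L / d`. -/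
def OI_stmt : Prop := ∀ (d L : ℕ) (B x : ℤ), d % 2 = 1 → ¬ 3 ∣ d →
  #{u ∈ Finset.Ico x (x + L) | (d : ℤ) ∣ 3 * u ^ 2 + B ∧ Int.gcd u d = 1} ≤ (L / d + 1) * #d.divisors

/-- MOD OW (medium; OI). Proof: `E = 2^b e`. Let `w₀` be the smallest and `w₁` the largest element of the set (if it is not empty). Claim
`(w₁ - w₀) 2^b ≤ 2 E j`, i.e. `w₁ - w₀ ≤ 2 e j`. If `4^b ≤ 2 E j`: `w₁ < 2^b`, clear. Otherwise `3 w₀² > 4^b - E j > 4^b/2`, so `6 w₀² > 4^b`,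
`12 w₀ > 2^b`, and `6 w₀ (w₁ - w₀) ≤ 3 (w₁² - w₀²) < 4^b - 3 w₀² < E j`, so `2^b (w₁ - w₀) ≤ 12 w₀ (w₁ - w₀) ≤ 2 E j`. So the set is contained in
`[w₀, w₀ + L)`, `L = 2 e j + 1`; OI with `d = j`, `B = -4^b` gives `(L / j + 1) τ(j)`, `L / j ≤ 2 e + 1`. (`j` divides `4^b - 3 w²`, which is odd and not
divisible by `3`; and `w` is prime to `j`, as a common prime divides `4^b`.) -/
def OW_stmt : Prop := ∀ b e j : ℕ, 1 ≤ b → 1 ≤ j →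
  #{w ∈ ws (4 ^ b) | j ∣ 4 ^ b - 3 * w ^ 2 ∧ 4 ^ b - 3 * w ^ 2 < 2 ^ b * e * j} ≤ (2 * e + 2) * #j.divisors

/-- MOD OD (medium; OI). Proof: `u ∈ Bdu`: `u > 2` is an odd prime, `u = 2r+1`, `24 tri r + 3 = 3 u²`, so with `n = tri r + 4^b m`:
`24 n + 3 - 4^b = 3 u² + 4^b (24 m - 1)`. There are `w ∈ ws (4^b)`, `d ≥ 2^b e`, `d ∣ 4^b - 3 w²`, `d ∣ 3 u² + 4^b (24 m - 1)`. At most `2^b` values of
`w` (`w < 2^b`), for each at most `D` values `d`. For given `w`, `d`: `d` is odd and not divisible by `3`, `u` is prime to `d` (otherwise `u ∣ d`, so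
`u ∣ 4^b (24 m - 1)`, `u ∣ 24 m - 1`). OI with `x = T + 1`, `L = T`, `B = 4^b (24 m - 1)`: at most `(T / d + 1) τ(d) ≤ (T/(2^b e) + 1) D` values of `u`. -/
def OD_stmt : Prop := ∀ b e m T D : ℕ, 1 ≤ b → 1 ≤ e → 1 ≤ m → 2 ≤ T →
  (∀ k : ℕ, 0 < k → k ≤ 4 ^ b → #k.divisors ≤ D) →
  #(Bdu b e m T) ≤ 2 ^ b * D ^ 2 * (T / (2 ^ b * e) + 1)

/-- MOD OC (short). Collisions. Proof: by symmetry `m < m'`. `U = 2 p.1 + 1`, `V = 2 p.2 + 1`: `(U - V)(U + V) = 8 A (m' - m)`, `U > V`. So `U - V` is a divisor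
of `8 A (m' - m)`, and it determines `U + V`, hence the pair. (`m - m' + (m' - m)` is `|m - m'|` in natural numbers.) -/
def OC_stmt : Prop := ∀ A m m' N : ℕ, 0 < A → m ≠ m' →
  #{p ∈ range N ×ˢ range N | tri p.1 + A * m = tri p.2 + A * m'} ≤ #(8 * A * (m - m' + (m' - m))).divisors

/-- MOD OP (medium; IDL). Proof: IDL with `a = 2 b` (`2^(2b) = 4^b`). The left side is the number of the `r` in the hypothesis modulo 2, i.e. `1`. So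
there are `w ∈ ws (4^b)` and `d ∣ gcd(4^b - 3w², M)`, `M = 24 n + 3 - 4^b > 0`, with `pp s ≠ 0`, `s = ((4^b - 3w²) M/d² + 1)/24`, so `p(s)` is odd. As `n` is
clean, `d < 2^b e`. The rest is as in `EXC_val` (Pool/Agent/helper9/EP/EXC.lean) and in Pool/Agent/helper23/EP/CV.lean: `(4^b - 3w²) M = 23 mod 24`,
`d² = 1 mod 24` (`d` is prime to `6`), so `24 s - 1 = (4^b - 3w²) M/d²`, `1 ≤ s ≤ 4^b n`. -/
def OP_stmt : Prop := ∀ b e n : ℕ, 2 ≤ b → 4 ^ b ≤ n →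
  #{r ∈ rs (4 ^ b) n | Odd (Fintype.card (Nat.Partition ((n - tri r) / 4 ^ b)))} = 1 →
  Cln b e n → Rch b e n

/-- MOD OM (medium; OW). Multiplicity. Proof: choose `w`, `d`, `s` for every `n ∈ N`, and let `j = (4^b - 3w²)/d`, `M' = (24n+3-4^b)/d`, so
`j M' = 24 s - 1`. The triple `(s, j, w)` determines `d = (4^b - 3w²)/j`, `M' = (24s-1)/j`, and `n` (`24 n + 3 - 4^b = d M'`, `n ≥ 4^b`). `s` is one of at most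
`sO (4^b X)` numbers, `j` is a divisor of `24 s - 1 ≤ 24 (4^b X)`: at most `D`; `w` is in the set of OW (`4^b - 3w² = d j < 2^b e j`): at most
`(2e+2) τ(j) ≤ (2e+2) D`. -/
def OM_stmt : Prop := ∀ b e X D : ℕ, 1 ≤ b →
  (∀ k : ℕ, 0 < k → k ≤ 24 * (4 ^ b * X) → #k.divisors ≤ D) →
  ∀ N : Finset ℕ, (∀ n ∈ N, n ≤ X ∧ 4 ^ b ≤ n ∧ Rch b e n) →
  #N ≤ sO (4 ^ b * X) * ((2 * e + 2) * D ^ 2)

/-- MOD OG (long; OD, OC, OP, OM). The main inequality.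
Proof: `S₁` := the `m` with `1 ≤ m ≤ Y - U`, `p(m)` odd: `#S₁ ≥ sO (Y-U) - 1`. For `m ∈ S₁` let `G m` be the set of the primes `u ∈ (T, 2T]` with
`u ∤ 24m - 1`, `n = n(u,m) = tri ((u-1)/2) + 4^b m` clean, and no representation `n = tri r' + 4^b m'` with `p(m')` odd, `m' ≠ m`. `n ≤ 4^b Y`, as
`tri ((u-1)/2) ≤ T²/2 ≤ 4^b U` (`8 tri r + 1 = u² ≤ 4T²`), so `m' ≤ Y`. We have `#(G m) ≥ P - (D + #(Bdu) + D sO Y)`: the primes `u ∣ 24 m - 1` are at most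
`τ(24m-1) ≤ D`; OD; and for every odd-valued `m' ≤ Y`, `m' ≠ m`, OC (with a large `N`; `u` determines `r = (u-1)/2`) gives at most
`τ(8 4^b |m-m'|) ≤ D` values of `u`. For `m ∈ S₁`, `u ∈ G m`: the number of `r'` in OP is exactly one (`r' = (u-1)/2`: other `r'` would give another
`m'`), so OP gives `Rch b e n`. The `n(u,m)` are different for different `(u,m)` (the representation is unique). OM with
`X = 4^b Y`, `4^b (4^b Y) = 16^b Y`. -/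
def OG_stmt : Prop := ∀ b e Y U T D P : ℕ, 2 ≤ b → 1 ≤ e → 2 ≤ T → U ≤ Y → T ^ 2 ≤ 2 * (4 ^ b * U) →
  (∀ k : ℕ, 0 < k → k ≤ 24 * (16 ^ b * Y) → #k.divisors ≤ D) →
  P ≤ #{u ∈ Ioc T (2 * T) | u.Prime} →
  (sO (Y - U) - 1) * (P - (D + 2 ^ b * D ^ 2 * (T / (2 ^ b * e) + 1) + D * sO Y)) ≤
    sO (16 ^ b * Y) * ((2 * e + 2) * D ^ 2)

/-- MOD OA (medium, real analysis; OG). Proof: `D = ⌊Z^ε⌋` is a divisor bound for all numbers `≤ 24 Z`, `Z` large (`card_divisors_le` in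
Pool/Agent/helper47/RA/Num.lean). `T = Nat.sqrt (2 * (4^b U))`: `√(4^b U) ≤ T ≤ Z`. `P` = the number of primes in `(T, 2T]`, `P ≥ T^(1-ε) ≥ T Z^(-ε)`
(`primesIn_ge` in Pool/Agent/helper86/PrimesDyadic.lean, namespace Pool.Agent.helper86; `T ≥ Z^(5ε)` is large). `e = ⌈Z^(5ε)⌉`.
`2^b D² (T/(2^b e) + 1) ≤ D² (T/e + 2^b) ≤ Z^(2ε) (T Z^(-5ε) + 2^b) ≤ 2 T Z^(-3ε)` (`T ≥ 2^b √U ≥ 2^b Z^(5ε)`); `D ≤ Z^ε ≤ T Z^(-3ε)`;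
`D sO Y ≤ Z^ε √(4^b U) Z^(-5ε) ≤ T Z^(-4ε)`. The sum is `≤ 4 T Z^(-3ε) ≤ T Z^(-ε)/2`. So the second factor on the left of OG is `≥ T Z^(-ε)/2`; the
first is `≥ sO (Y-U)/2` (`sO (Y-U) ≥ 2` as `Y - U ≥ 1` and `p(0) = p(1) = 1`). The right side is `≤ sO Z (2 Z^(5ε) + 4) Z^(2ε) ≤ 4 Z^(7ε) sO Z`
(`sO` is monotone). So `sO (Y-U) √(4^b U) ≤ 16 Z^(8ε) sO Z ≤ Z^(9ε) sO Z`. -/
def OA_stmt : Prop := ∀ ε : ℝ, 0 < ε → ε ≤ 1 / 100 → ∃ Z₀ : ℕ, ∀ Z b Y U : ℕ, Z₀ ≤ Z → 2 ≤ b →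
  16 ^ b * Y ≤ Z → U < Y → (Z : ℝ) ^ (10 * ε) ≤ U →
  (sO Y : ℝ) ≤ Real.sqrt ((4 : ℝ) ^ b * U) * (Z : ℝ) ^ (-(5 * ε)) →
  (sO (Y - U) : ℝ) * Real.sqrt ((4 : ℝ) ^ b * U) ≤ (Z : ℝ) ^ (9 * ε) * sO Z

/-- MOD OS1 (medium; OA). Dense case. Proof: `U = ⌊4^b Z^(-10ε)/4⌋`, `U ≥ Z^(10ε)` and `U ≥ 4^b Z^(-10ε)/8` for large `Z`, `4 U ≤ 4^b Z^(-10ε)`. Let `y` be the
smallest number with `2 U ≤ sO y`; `y ≤ Y`, `sO y = 2 U` (`sO (y+1) ≤ sO y + 1`, `sO 0 = 1 < 2U`), and `y + 1 ≥ sO y = 2U`, so `U < y`. OA with `(b, y, U)`: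
`sO y = 2 U ≤ √(4^b U) Z^(-5ε)` as `4 U² ≤ 4^b U Z^(-10ε)`. `sO (y - U) ≥ sO y - U = U`. So `Z^(9ε) sO Z ≥ U √(4^b U) ≥ 16^b Z^(-15ε)/24`. -/
def OS1_stmt : Prop := ∀ ε : ℝ, 0 < ε → ε ≤ 1 / 500 → ∃ Z₀ : ℕ, ∀ Z b Y : ℕ, Z₀ ≤ Z → 2 ≤ b →
  16 ^ b * Y ≤ Z → (Z : ℝ) ^ (50 * ε) ≤ (4 : ℝ) ^ b → (4 : ℝ) ^ b * (Z : ℝ) ^ (-(10 * ε)) ≤ sO Y →
  (16 : ℝ) ^ b * (Z : ℝ) ^ (-(40 * ε)) ≤ sO Z

/-- A lower bound with exponent `β` for the odd values. -/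
def LBO (β : ℝ) : Prop := ∀ η : ℝ, 0 < η → ∃ y₀ : ℕ, ∀ y : ℕ, y₀ ≤ y → (y : ℝ) ^ (β - η) ≤ sO y

/-- MOD OS2 (medium; OA). Sparse case. Proof: `U = Y / 2` (natural division), so `Y - U ≥ Y/2`, `U ≥ Y/4 ≥ 4^b`, `U ≥ Z^(10ε)`.
`sO Y ≤ 4^b Z^(-10ε) ≤ √(4^b U) Z^(-5ε)`. OA: `Z^(9ε) sO Z ≥ sO (Y - U) √(4^b U)`, `√(4^b U) ≥ 2^b √Y/2`, and
`sO (Y - U) ≥ (Y/2)^(β-ε) ≥ Y^β Z^(-ε)/2` for large `Z` (LBO with `η = ε`; `Y ≥ Z^(20ε)`, `Y ≤ Z`, `sO` monotone, or `Y - U` itself). -/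
def OS2_stmt : Prop := ∀ β : ℝ, 0 ≤ β → β ≤ 1 → LBO β → ∀ ε : ℝ, 0 < ε → ε ≤ 1 / 500 → ∃ Z₀ : ℕ,
  ∀ Z b Y : ℕ, Z₀ ≤ Z → 2 ≤ b → 16 ^ b * Y ≤ Z → 4 * 4 ^ b ≤ Y → (Z : ℝ) ^ (20 * ε) ≤ Y →
  (sO Y : ℝ) ≤ (4 : ℝ) ^ b * (Z : ℝ) ^ (-(10 * ε)) →
  (Y : ℝ) ^ (β + 1 / 2) * (2 : ℝ) ^ b * (Z : ℝ) ^ (-(12 * ε)) ≤ sO Z

/-- MOD OS (medium; OS1, OS2). The step. Proof: `β' = (1/2+β)/(5/4+β)`, `2/5 ≤ β' ≤ 14/23 < 2/3`. `ε = min (η/60) (1/500)`. `Z` large; let `b` be the largest integer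
with `16^b ≤ Z^β'`, so `Z^β'/16 < 16^b`, `b ≥ 2`; `Y = Z / 16^b`, `Z^(1-β')/2 ≤ Y`. `4 * 4^b ≤ 4 Z^(β'/2) ≤ Y` (`β'/2 < 1 - β'`), `4^b ≥ Z^(1/5)/4 ≥ Z^(50ε)`.
If `sO Y ≥ 4^b Z^(-10ε)`: OS1 gives `sO Z ≥ Z^(β'-40ε)/16 ≥ Z^(β'-η)`. Otherwise OS2:
`sO Z ≥ (Z^(1-β')/2)^(β+1/2) (Z^(β'/4)/2) Z^(-12ε) ≥ Z^(β' - 12ε)/8`, since `(1-β')(β+1/2) + β'/4 = β + 1/2 - β'(β+1/4) = β'`. -/
def OS_stmt : Prop := ∀ β : ℝ, 0 ≤ β → β ≤ 2 / 3 → LBO β → LBO ((1 / 2 + β) / (5 / 4 + β))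

/-- MOD OT (short; OS). Proof: the set `B` of the `β ∈ [0, 2/3]` with `LBO β` contains `0` (`sO y ≥ 1 ≥ y^(-η)`), and its supremum `γ` (given `η` take
`β ∈ B` with `β > γ - η/2`; `y^(γ-η) ≤ y^(β-η/2)`). `γ' = (1/2+γ)/(5/4+γ) ≤ 14/23` is in `B` by OS, so `γ' ≤ γ`, i.e. `γ² + γ/4 - 1/2 ≥ 0`,
`γ ≥ (√33 - 1)/8`; and `LBO` holds for all smaller exponents. -/
def OT_stmt : Prop := LBO ((Real.sqrt 33 - 1) / 8)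

/-- MOD OL (long, real analysis; OA, OT). Infinitely many `X` with exponent `3/4`.
Proof: suppose not: `ε₀ > 0` (we may assume `ε₀ ≤ 1/8`) with `sO X < X^(3/4-ε₀)` for all `X ≥ X₀`. `Γ` = the set of the `c` with
`sO y ≤ y^c` for all large `y`; it contains `3/4 - ε₀` and all its elements are `≥ θ = (√33-1)/8 > 1/2` (OT). `γ = inf Γ`, `1/2 < γ ≤ 3/4 - ε₀`. Let
`δ = ε₀/100`. `γ + δ ∈ Γ` and `γ - δ ∉ Γ`, so there are arbitrarily large `Y` with `sO Y > Y^(γ-δ)`. For such a large `Y` let `b` be the smallest integer with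
`4^b ≥ Y^(2γ-1+5δ)`, so `4^b ≤ 4 Y^(2γ-1+5δ)`, `b ≥ 2`. Apply OA with `ε = δ/15`, `2Y` in the place of `Y`, `U = Y`, `Z = 16^b (2Y) ≤ 32 Y^(4γ-1+10δ) ≤ Y³`.
Condition: `sO (2Y) ≤ (2Y)^(γ+δ)` and `√(4^b Y) Z^(-5ε) ≥ Y^(γ+5δ/2) Y^(-δ) ≥ (2Y)^(γ+δ)`; `U = Y ≥ Z^(10ε)` as `Z^(10ε) ≤ Y^(2δ)`. Conclusion:
`sO Y √(4^b Y) ≤ Z^(9ε) sO Z ≤ Y^(2δ) Z^(γ+δ)`: the left side is `≥ Y^(γ-δ) Y^(γ+5δ/2) ≥ Y^(2γ)`, the right side is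
`≤ Y^(2δ) (32 Y^(4γ-1+10δ))^(γ+δ) ≤ 32 Y^((4γ-1)γ + 20δ)`, but `2γ - (4γ-1)γ = γ (3-4γ) ≥ 2ε₀ = 200 δ`: a contradiction for large `Y`. -/
def OL_stmt : Prop := ∀ ε : ℝ, 0 < ε → ∀ X₀ : ℕ, ∃ X : ℕ, X₀ ≤ X ∧ (X : ℝ) ^ (3 / 4 - ε) ≤ sO X

end Pool.Agent.EP
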