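import Mathlib

/-!
# Project ep (MP_ebc808_nt): some number of terms is odd (part K, helper81)

Paper proof: `/team-store/EP23_helper81.md`, section 2. Every module proves one statement:
`theorem XX (h : YY_stmt) ... : XX_stmt`, file `Pool/Agent/<seat>/EP/XX.lean`,
`import Pool.Agent.helper81.EP.SpecK`, namespace `Pool.Agent.EP`; auxiliary lemmas prefixed `XX_`;
earlier statements of this file may be hypotheses. No sorry, no double quotes in the file.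
-/

set_option autoImplicit false

namespace Pool.Agent.EP

/-- The number of odd `w > 0` with `3 w² < 4^b` and `d ∣ 4^b - 3 w²`. -/
def NK (d b : ℕ) : ℕ :=
  ((Finset.range (2 ^ b)).filter fun w => w % 2 = 1 ∧ 3 * w ^ 2 < 4 ^ b ∧ d ∣ 4 ^ b - 3 * w ^ 2).card

/-- `2^b / √3` is at distance less than one from `4 m`. -/
def Near (b m : ℕ) : Prop :=
  1 ≤ m ∧ 3 * (4 * m - 1) ^ 2 < 4 ^ b ∧ 4 ^ b < 3 * (4 * m + 1) ^ 2

/-- The distance of `n` to the nearest multiple of `q`. -/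
def dis (n q : ℕ) : ℕ := min (n % q) (q - n % q)

/-- MOD KA. Parity of the number of all odd `w`. Proof: let `w₀` be the largest odd number with
`3 w₀² < 4^b` (it exists, `b ≥ 1`). The odd `w` with `3 w² < 4^b` are those `≤ w₀` (and these are
`< 2^b`), so `NK 1 b = (w₀ + 1) / 2`; it is even iff `w₀ = 4 m - 1`, `m ≥ 1`, and then
`4^b < 3 (4 m + 1)²` (maximality, and `3 (odd)² ≠ 4^b`). -/
def KA_stmt : Prop := ∀ b : ℕ, 1 ≤ b → Even (NK 1 b) → ∃ m, Near b m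

/-- MOD KB. Doubling. Proof: `3 (8m - 2)² < 4^(b+1) < 3 (8m + 2)²` and
`3 (4m' - 1)² < 4^(b+1) < 3 (4m' + 1)²` give `4m' - 1 < 8m + 2` and `8m - 2 < 4m' + 1`, so
`m' = 2m`. Second part: `3 (4m - 1)² < 4^b` gives `m < 2^b`. -/
def KB_stmt : Prop := (∀ b m m' : ℕ, Near b m → Near (b + 1) m' → m' = 2 * m) ∧
  ∀ b m : ℕ, Near b m → m < 2 ^ b

/-- MOD KC. Square roots modulo a power of a prime `l ≡ ±1 mod 12`. Proof: `3` is a square modulo `l`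
(quadratic reciprocity), so there is `s` with `l ∣ 3 s² - 1`; lift to `l ^ i` by induction (Hensel).
If `3 s² ≡ 1` then `4^b - 3 w² ≡ 3 (2^b s - w) (2^b s + w)` mod `l ^ i`, and `l` does not divide
both factors, as it does not divide `2 * 2^b * s`. `i ≥ 1`. -/
def KC_stmt : Prop := ∀ l : ℕ, l.Prime → (l % 12 = 1 ∨ l % 12 = 11) → ∀ i : ℕ, 1 ≤ i →
  ∃ s : ℤ, ¬ (l : ℤ) ∣ s ∧ ∀ (b : ℕ) (w : ℤ), (l : ℤ) ^ i ∣ 4 ^ b - 3 * w ^ 2 ↔
    ((l : ℤ) ^ i ∣ w - 2 ^ b * s ∨ (l : ℤ) ^ i ∣ w + 2 ^ b * s)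

/-- MOD KD. Counting in two classes modulo `2 d`. Proof: write `n = 2 d k + r`, `r < 2 d`, `r` even.
Among the `w < 2 d k` there are exactly `2 k` with `w % (2d) = o` or `2d - o` (`o < d`, so these are
different). The others are `[o < r] + [2d - o < r]`. `dis n (2d) = min r (2d - r)`. If `r ≤ d` the number
is `[o < r]`, odd iff `o < r = dis`. If `r > d` it is `1 + [2d - o < r]`, odd iff
`r ≤ 2d - o` iff `2d - r ≥ o` iff `o < 2d - r` (parity). -/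
def KD_stmt : Prop := ∀ d o n : ℕ, d % 2 = 1 → o % 2 = 1 → o < d → n % 2 = 0 →
  (Odd ((Finset.range n).filter fun w => w % (2 * d) = o ∨ w % (2 * d) = 2 * d - o).card ↔
    o < dis n (2 * d))

/-- MOD KE. `NK` for a prime power, near a multiple of `4`. `c` is the distance of `2^b s` to the even
multiples... precisely: `c` is the even number, `0 < c < d`, with `c ≡ ± 2^b s` mod `d`
(`d = l ^ i`, `s` as in KC). Proof: `o = d - c` is odd, `0 < o < d`, and `o ≡ ∓ 2^b s`. For odd `w`: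
`d ∣ 4^b - 3w²` iff `w ≡ ± o` mod `d` iff `w ≡ ± o` mod `2d`. And `3 w² < 4^b` iff `w < 4 m` (`w` odd,
`Near b m`). So `NK d b` is the number in KD with `n = 4 m`; `o < dis` iff not `dis + c < d`
(`dis (4m) (2d)` and `c` are even, `d` is odd: `dis < o` or `dis > o`). -/
def KE_stmt : Prop := ∀ (l i : ℕ), l.Prime → (l % 12 = 1 ∨ l % 12 = 11) → 1 ≤ i → ∀ s : ℤ,
  (∀ (b : ℕ) (w : ℤ), (l : ℤ) ^ i ∣ 4 ^ b - 3 * w ^ 2 ↔
    ((l : ℤ) ^ i ∣ w - 2 ^ b * s ∨ (l : ℤ) ^ i ∣ w + 2 ^ b * s)) →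
  ∀ b m c : ℕ, Near b m → c % 2 = 0 → 0 < c → c < l ^ i →
  ((l : ℤ) ^ i ∣ (c : ℤ) - 2 ^ b * s ∨ (l : ℤ) ^ i ∣ (c : ℤ) + 2 ^ b * s) →
  (Even (NK (l ^ i) b) ↔ dis (4 * m) (2 * l ^ i) + c < l ^ i)

/-- MOD KF. The doubling map on even numbers below `d` (`d` odd): `D a = 2a` if `2a < d`, and
`2d - 2a` otherwise. (i) if `a = dis n (2d)` with `n` even then `a < d` and
`dis (2n) (2d) = D a`. (ii) if `c` is even, `0 < c < d`, `c ≡ ± x` mod `d` then `D c` is even,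
`0 < D c < d`, and `D c ≡ ± 2x` mod `d`. (iii) if `0 < a`, `0 < c`, both even, `a + c < d` then
`min (D a) (D c) = 2 * min a c`. (If `c ≤ a`, so `2c < d`, `D c = 2c`; if `2a > d` then
`D a = 2d - 2a > 2c`.) (iv) existence of `c` in (ii) for every `x` not divisible by `d`: one of
`x mod d`, `d - x mod d` is even. -/
def KF_stmt : Prop := ∀ d : ℕ, d % 2 = 1 → 3 ≤ d →
  (∀ n, n % 2 = 0 → dis n (2 * d) < d ∧ dis n (2 * d) % 2 = 0 ∧
    dis (2 * n) (2 * d) = if 2 * dis n (2 * d) < d then 2 * dis n (2 * d)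
      else 2 * d - 2 * dis n (2 * d)) ∧
  (∀ (c : ℕ) (x : ℤ), c % 2 = 0 → 0 < c → c < d → ((d : ℤ) ∣ (c : ℤ) - x ∨ (d : ℤ) ∣ (c : ℤ) + x) →
    ∀ c', (c' = if 2 * c < d then 2 * c else 2 * d - 2 * c) → c' % 2 = 0 ∧ 0 < c' ∧ c' < d ∧
      ((d : ℤ) ∣ (c' : ℤ) - 2 * x ∨ (d : ℤ) ∣ (c' : ℤ) + 2 * x)) ∧
  (∀ a c : ℕ, a % 2 = 0 → c % 2 = 0 → 0 < a → 0 < c → a + c < d →
    min (if 2 * a < d then 2 * a else 2 * d - 2 * a) (if 2 * c < d then 2 * c else 2 * d - 2 * c) =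
      2 * min a c) ∧
  ∀ x : ℤ, ¬ (d : ℤ) ∣ x → ∃ c : ℕ, c % 2 = 0 ∧ 0 < c ∧ c < d ∧
    ((d : ℤ) ∣ (c : ℤ) - x ∨ (d : ℤ) ∣ (c : ℤ) + x)

/-- MOD KG. The window. Let `d = l ^ i`, `l ≡ ±1 mod 12` prime, `i ≥ 1`, `d ∤ m`, `Near (b + t) (2^t * m)` and
`NK d (b + t)` even for all `t ≤ h`. Then `2 ^ (h + 1) < d`. Proof: `s` from KC. Let `a t = dis (4 * 2^t * m) (2d)`,
and `c t` with `c 0` from KF (iv) for `x = 2^b s` (`d` does not divide it), `c (t+1)` from KF (ii), so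
`c t ≡ ± 2^(b+t) s`. KE: `a t + c t < d` for `t ≤ h`. `a 0 > 0` since `2 d ∣ 4 m` would give `d ∣ m`. By KF
(i), (iii) `min (a t) (c t) = 2^t * min (a 0) (c 0) ≥ 2^(t+1)` (even and positive) for `t ≤ h`; and
`2 * min (a h) (c h) ≤ a h + c h < d`. Hence `2^(h+2) < d`. -/
def KG_stmt : Prop := ∀ l i b m h : ℕ, l.Prime → (l % 12 = 1 ∨ l % 12 = 11) → 1 ≤ i →
  ¬ l ^ i ∣ m → (∀ t ≤ h, Near (b + t) (2 ^ t * m)) → (∀ t ≤ h, Even (NK (l ^ i) (b + t))) →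
  2 ^ (h + 1) < l ^ i

/-- MOD KH. Choice of the prime. Proof: let `v k` be the exponent of `l k` in `m` (`Nat.factorization`). The product
of the pairwise coprime `l k ^ v k` divides `m`, so it is `≤ m < 2^b`. If `l k ^ v k ≥ 2^(b/J + 1)` for
all `k` then it would be at least `2^((b/J + 1) * J) ≥ 2^b`. Take `i = v k + 1`. -/
def KH_stmt : Prop := ∀ (J : ℕ) (l : Fin J → ℕ), 1 ≤ J → (∀ k, (l k).Prime) →
  Function.Injective l → ∀ b m : ℕ, 1 ≤ m → m < 2 ^ b →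
  ∃ k i, 1 ≤ i ∧ ¬ l k ^ i ∣ m ∧ l k ^ i ≤ l k * 2 ^ (b / J + 1)

/-- MOD KP. Main statement of part K. Proof: let `L` be the maximum of the `l k`, `C ≥ 1` with
`2 * L ≤ 2 ^ C` (and `C ≥ 2`). Let `b ≥ 1`, `h = b / J + C`, and suppose that for all `b' ∈ [b, b + h]`, all `k` and all
`i` with `l k ^ i ≤ 2 ^ (b / J + C)` the sum is even. `i = 0`: `NK 1 b'` is even (`l k ^ 0 = 1`), so by KA there are `m_b'`
with `Near b' m_b'`, and by KB `m_(b+t) = 2^t m`. By KH for `m = m_b` we get `k`, `i` with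
`l k ^ i ≤ L * 2 ^ (b / J + 1) ≤ 2 ^ (b / J + C)`, `l k ^ i ∤ m`. The sums for `i` and `i - 1` are even (`l k ^ (i-1)` is
smaller), so `NK (l k ^ i) b'` is even for `b' ∈ [b, b + h]`. KG gives `2 ^ (h + 1) < l k ^ i ≤ 2 ^ h`,
a contradiction. -/
def KP_stmt : Prop := ∀ (J : ℕ) (l : Fin J → ℕ), 1 ≤ J →
  (∀ k, (l k).Prime ∧ (l k % 12 = 1 ∨ l k % 12 = 11)) → Function.Injective l →
  ∃ C : ℕ, ∀ b : ℕ, 1 ≤ b → ∃ b' k i, b ≤ b' ∧ b' ≤ b + b / J + C ∧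
    l k ^ i ≤ 2 ^ (b / J + C) ∧ Odd (∑ i' ∈ Finset.range (i + 1), NK (l k ^ i') b')

/-- MOD KQ. There are arbitrarily many primes `≡ ±1 mod 12`. Proof: let `q` be a prime divisor of
`3 x² - 1` with `x = 2 * 3 * P`, `P` the product of the primes found so far (or a factorial): `q ≠ 2, 3` and `q` is
not one of the factors of `x`; `3` is a square mod `q`, so `q ≡ ±1 mod 12` (quadratic reciprocity). Or use
Dirichlet's theorem on primes `≡ 1 mod 12` from Mathlib (`Nat.setOf_prime_and_eq_mod_infinite`). -/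
def KQ_stmt : Prop := ∀ J : ℕ, ∃ l : Fin J → ℕ,
  (∀ k, (l k).Prime ∧ (l k % 12 = 1 ∨ l k % 12 = 11)) ∧ Function.Injective l

end Pool.Agent.EP
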