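import Pool.Agent.helper7.EP.SpecL
import Pool.Agent.helper81.EP.SpecK
import Pool.Agent.helper86.PrimesDyadic

/-!
# Project ep (MP_ebc808_nt): the exponent 2/3 for every X (part C, helper81)

Paper proof: `/team-store/EP23_helper81.md`, sections 1 and 3. Every module proves one statement:
`theorem XX (h : YY_stmt) ... : XX_stmt`, file `Pool/Agent/<seat>/EP/XX.lean`,
`import Pool.Agent.helper81.EP.SpecC`, namespace `Pool.Agent.EP`; auxiliary lemmas prefixed `XX_`;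
earlier statements of SpecK, SpecC (and IDL_stmt) may be hypotheses. No sorry, no double quotes in the file.
-/

set_option autoImplicit false

open Finset
open scoped Real

noncomputable section

namespace Pool.Agent.EP

/-- Products of primes `≡ ±5 mod 12`: all classes modulo `24` prime to `6`. -/
def In8 : Finset ℕ := {1, 5, 7, 17, 19, 35, 85, 95}

/-- MOD CI (short). Proof: it is enough that `q ∈ {5, 7, 17, 19}` does not divide `4^b - 3 w²`: otherwise in `ZMod q`: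
`(2^b)² = 3 w²`, and `∀ x y : ZMod q, x ^ 2 = 3 * y ^ 2 → x = 0` (decide), but `2 ^ b ≠ 0`. -/
def CI_stmt : Prop := ∀ b w r : ℕ, r ∈ In8 → 3 * w ^ 2 < 4 ^ b → Nat.Coprime (4 ^ b - 3 * w ^ 2) r

/-- MOD CR (short). Proof: `4 ^ b % 24 = 16` for `b ≥ 2`; so `d * r * c % 24 = 11` is needed; the elements of `In8` are
`1, 5, 7, 17, 19, 11, 13, 23` modulo `24`, all classes prime to `6`; finite check on `d % 24`, `c % 24`. -/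
def CR_stmt : Prop := ∀ d c b : ℕ, Nat.Coprime d 6 → Nat.Coprime c 6 → 2 ≤ b →
  ∃ r ∈ In8, (d * r * c + 4 ^ b) % 24 = 3

/-- MOD CG (short; CI). Proof: `j = 4^b - 3 w²` is prime to `r` (CI) and to `p`, as `0 < j < p`. -/
def CG_stmt : Prop := ∀ b l i r p w : ℕ, r ∈ In8 → p.Prime → 4 ^ b < p → 3 * w ^ 2 < 4 ^ b →
  Nat.gcd (4 ^ b - 3 * w ^ 2) (l ^ i * r * p) = Nat.gcd (4 ^ b - 3 * w ^ 2) (l ^ i)

/-- MOD CN (medium). The number of terms. Proof: the divisors of `gcd(j, l^i)` are the `l ^ i'`, `i' ≤ i`, `l ^ i' ∣ j`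
(`Nat.mem_divisors_prime_pow`, `Nat.dvd_gcd_iff`); interchange the sums. `ws (4 ^ b)` consists of the odd `w < 4^b` with `3 w² < 4^b`;
these are `< 2^b`, as in the definition of `NK`. -/
def CN_stmt : Prop := ∀ b l i : ℕ, l.Prime →
  ∑ w ∈ ws (4 ^ b), #(Nat.gcd (4 ^ b - 3 * w ^ 2) (l ^ i)).divisors =
    ∑ i' ∈ range (i + 1), NK (l ^ i') b

/-- MOD CV (long; IDL, CG, CN). The even value. Proof: `A = 4 ^ b = 2 ^ (2 * b)`. IDL with `a = 2 b`: the left side is an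
empty sum, so the right side is `0`. If all values `pp` on the right side were `1`, the right side would be
`∑ w, #divisors (gcd (A - 3w²) M)` in `ZMod 2`, `M = 24 n + 3 - A = l^i r p`, which is by CG, CN the sum of the `NK`, odd. So there are `w`,
`D ∣ gcd (j, M)`, `j = A - 3w²`, with `pp s = 0`, `s = (j M / D² + 1) / 24`. `D ∣ j < p` so `p` does not divide `D`, and
`p ∣ j M = D² Q`, so `p ∣ Q = j M / D²`. As in `EXC_val` (Pool/Agent/helper9/EP/EXC.lean): `j M % 24 = 23` (`j = A - 3`, `M = 3 - A` mod 24,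
`A = 16` mod 24), `D² % 24 = 1` (`D ∣ j`, prime to `6`), so `Q % 24 = 23`, `24 s = Q + 1`, and `Q ≤ (A - 3) (24 n)` gives `s ≤ A n`. -/
def CV_stmt : Prop := ∀ b l i r p n : ℕ, 2 ≤ b → l.Prime → 5 ≤ l → r ∈ In8 → p.Prime → 4 ^ b < p →
  24 * n + 3 = l ^ i * r * p + 4 ^ b → Odd (∑ i' ∈ range (i + 1), NK (l ^ i') b) →
  rs (4 ^ b) n = ∅ →
  ∃ s : ℕ, 1 ≤ s ∧ s ≤ 4 ^ b * n ∧ Even (Fintype.card (Nat.Partition s)) ∧ p ∣ 24 * s - 1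

/-- MOD CB (short). The left side is empty for most `n`. Proof: if `r ∈ rs A n` then `n = tri r + A m`, `m ≤ X / A`, and
`(2r+1)² = 8 tri r + 1 ≤ 8 X + 1`, so `r ≤ Nat.sqrt (8 X + 1)`: the set is contained in the image of
`range (Nat.sqrt (8X+1) + 1) ×ˢ range (X / A + 1)`. -/
def CB_stmt : Prop := ∀ A X : ℕ, 0 < A →
  #{n ∈ range (X + 1) | rs A n ≠ ∅} ≤ (Nat.sqrt (8 * X + 1) + 1) * (X / A + 1)

/-- MOD CF (short). Few primes. Proof: five distinct primes `> A` dividing `24 s - 1 > 0` would give `A ^ 5 < 24 s - 1`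
(`Finset.prod_primes_dvd` or coprimality). -/
def CF_stmt : Prop := ∀ A s y : ℕ, 1 ≤ A → 1 ≤ s → 24 * s < A ^ 5 →
  #{p ∈ range y | p.Prime ∧ A < p ∧ p ∣ 24 * s - 1} ≤ 4

/-- MOD CC (medium; CR, CV, CB, CF). The counting. Proof: take `r` from CR for `d = l ^ i` (prime to `6`) and `c`. For `p` in the
set on the left: `p = c` mod `24`, so `24 n + 3 = l^i r p + 4^b` for a (unique) `n = n_p`, `24 n + 3 ≤ 190 l^i z + 4^b ≤ 24 X` (`r ≤ 95`,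
`p ≤ 2z`), `n_p ≤ X`; `p ↦ n_p` is injective. The `p` with `rs (4^b) n_p ≠ ∅` are at most as many as in CB. For the others CV gives
`s_p` with `1 ≤ s ≤ 4^b n_p ≤ 4^b X`, `p(s)` even, `p ∣ 24 s - 1`; `24 s ≤ 4^b (24 X) < (4^b)^5`, so by CF every `s` occurs for at most
`4` primes (`p > z ≥ 4^b`), `Finset.card_le_mul_card_image`. -/
def CC_stmt : Prop := ∀ b l i c z X : ℕ, 2 ≤ b → l.Prime → 5 ≤ l →
  Odd (∑ i' ∈ range (i + 1), NK (l ^ i') b) → 4 ^ b ≤ z → Nat.Coprime c 6 →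
  190 * l ^ i * z + 4 ^ b ≤ 24 * X → 24 * X < 4 ^ (4 * b) →
  #{p ∈ Ioc z (2 * z) | p.Prime ∧ p % 24 = c} ≤
    (Nat.sqrt (8 * X + 1) + 1) * (X / 4 ^ b + 1) + 4 * sE (4 ^ b * X)

/-- MOD CP (short). Primes in a class. Proof: `primesIn_ge` (Pool/Agent/helper86/PrimesDyadic.lean, namespace there), with exponent `min δ (1/2)` (`z ≥ 1`); all the primes in
`(z, 2z]` are prime to `6` (`z ≥ 3`), so they are in `8` classes modulo `24`; pigeonhole. -/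
def CP_stmt : Prop := ∀ δ : ℝ, 0 < δ → ∃ z₀ : ℕ, ∀ z : ℕ, z₀ ≤ z → ∃ c : ℕ, Nat.Coprime c 6 ∧
  (z : ℝ) ^ (1 - δ) / 8 ≤ (#{p ∈ Ioc z (2 * z) | p.Prime ∧ p % 24 = c} : ℝ)

/-- MOD CX (medium; KP, KQ). Choice of `A = 4 ^ b` and `l ^ i`. Proof: `J = ⌈1/η⌉`, `l` from KQ, `C` from KP, `K = 4^(C+2)`. Let `b₀` be the least
integer with `Y^(1/3+2η) ≤ 4^b₀`; `b₀ ≥ 2` for `Y ≥ 4096` (so `Y^(1/3) > 4`), and `4^b₀ ≤ 4 Y^(1/3+2η)` (minimality). KP gives `b ∈ [b₀, b₀ + b₀/J + C]`, `k`, `i` with `l k ^ i ≤ 2^(b₀/J+C)`.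
`b₀/J ≤ b₀ η`, so `4^b ≤ 4^C (4^b₀)^(1+η) ≤ 4^C 16 Y^((1/3+2η)(1+η)) ≤ K Y^(1/3+3η)` (`2η² ≤ 2η/3`) and
`l k ^ i ≤ 2^C (4^b₀)^(η/2) ≤ 2^C 2 Y^((1/3+2η)η/2) ≤ K Y^(η/2)` (`Y ≥ 1`). `l k ≥ 5` as it is `≡ ±1 mod 12` and prime. -/
def CX_stmt : Prop := ∀ η : ℝ, 0 < η → η ≤ 1 / 100 → ∃ (K : ℝ) (Y₀ : ℕ), 1 ≤ K ∧ ∀ Y : ℕ, Y₀ ≤ Y →
  ∃ b l i : ℕ, 2 ≤ b ∧ l.Prime ∧ 5 ≤ l ∧ Odd (∑ i' ∈ range (i + 1), NK (l ^ i') b) ∧
    (Y : ℝ) ^ (1 / 3 + 2 * η) ≤ (4 : ℝ) ^ b ∧ (4 : ℝ) ^ b ≤ K * (Y : ℝ) ^ (1 / 3 + 3 * η) ∧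
    ((l ^ i : ℕ) : ℝ) ≤ K * (Y : ℝ) ^ (η / 2)

/-- MOD CY (long; CX, CC, CP). The theorem. Proof: it is enough to prove it for `ε ≤ 1/20` (`Y^(2/3-ε)` decreases in `ε`); `η = ε/5`.
`K`, `b`, `l`, `i` from CX, `A = 4^b`, `d = l^i`, `X = Y / A`, `z = X / (10 d)` (natural division), `Y` large.
(1) `A X ≤ Y`, `X ≤ Y^(2/3-2η)`, `X ≥ Y^(2/3-3η)/K - 1 ≥ Y^(2/3-3η)/(2K)`. (2) `A^5 ≥ Y^(5/3) > 24 Y ≥ 24 A X`, so `24 X < 4^(4b)`.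
(3) `z ≥ X/(10d) - 1 ≥ Y^(2/3-7η/2)/(40 K²) ≥ K Y^(1/3+3η) ≥ A` (`13η/2 < 1/3`, `Y` large). (4) `190 d z + A ≤ 19 X + X ≤ 24 X`.
(5) CP with `δ = η`: `c` and `N ≥ z^(1-η)/8 ≥ c₀ Y^(2/3-4.2η)`, `c₀ = 1/(320 K²)` (`(2/3-7η/2)(1-η) ≥ 2/3 - 4.2 η`).
(6) `Nat.sqrt (8X+1) + 1 ≤ 4 √X`, `X/A + 1 ≤ 2X/A` (`A ≤ X`), so `E = (Nat.sqrt (8X+1) + 1)(X/A+1) ≤ 8 X^(3/2)/A ≤ 8 Y^(1-3η)/Y^(1/3+2η) = 8 Y^(2/3-5η)`.
(7) CC: `4 sE Y ≥ 4 sE (A X) ≥ N - E ≥ c₀ Y^(2/3-4.2η) - 8 Y^(2/3-5η) ≥ 4 Y^(2/3-5η)` for large `Y`. (`sE` is monotone.) -/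
def CY_stmt : Prop := ∀ ε : ℝ, 0 < ε → ∃ Y₀ : ℕ, ∀ Y : ℕ, Y₀ ≤ Y →
  (Y : ℝ) ^ (2 / 3 - ε) ≤ sE Y

end Pool.Agent.EP
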